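import Mathlib
import Pool.Agent.H579R3.Epi3

/-!
# Structures coding labelled trees, for elementary embeddings

The universe consists of the nodes of the tree `List ℤ` and, for each node `p` and each label `κ`, of an
infinite set of points; the points of such a set have pairwise different colours, all natural numbers
occur as colours, and one point is uncoloured if and only if `κ` is a label of `p`.
-/

set_option autoImplicit false

open Set

namespace Pool.Agent.Y567.EE

open Pool.Agent.H579R3.Epi (K IsAuto TLe Lam N)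

/-- nodes and label points -/
abbrev E : Type := List ℤ ⊕ (List ℤ × K × ℕ)

/-- relation symbols: root, parent, label relations, colours -/
abbrev I : Type := Bool ⊕ (K ⊕ ℕ)

open Classical in
/-- the colour of a label point -/
noncomputable def col (Λ : List ℤ → Set K) (p : List ℤ) (κ : K) : ℕ → Option ℕ
  | 0 => if κ ∈ Λ p then none else some 0
  | n + 1 => if κ ∈ Λ p then some n else some (n + 1)

/-- the relations -/
def rel (Λ : List ℤ → Set K) : I → E → E → Prop
  | .inl false, a, b => a = b ∧ a = .inl []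
  | .inl true, a, b => ∃ p k, a = .inl p ∧ b = .inl (k :: p)
  | .inr (.inl κ), a, b => ∃ p n, a = .inl p ∧ b = .inr (p, κ, n)
  | .inr (.inr m), a, b => a = b ∧ ∃ p κ n, a = .inr (p, κ, n) ∧ col Λ p κ n = some m

lemma rel_root {Λ : List ℤ → Set K} {a b : E} : rel Λ (.inl false) a b ↔ a = b ∧ a = .inl [] :=
  Iff.rfl
lemma rel_par {Λ : List ℤ → Set K} {a b : E} :
    rel Λ (.inl true) a b ↔ ∃ p k, a = .inl p ∧ b = .inl (k :: p) := Iff.rfl
lemma rel_lab {Λ : List ℤ → Set K} {κ : K} {a b : E} :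
    rel Λ (.inr (.inl κ)) a b ↔ ∃ p n, a = .inl p ∧ b = .inr (p, κ, n) := Iff.rfl
lemma rel_col {Λ : List ℤ → Set K} {m : ℕ} {a b : E} :
    rel Λ (.inr (.inr m)) a b ↔ a = b ∧ ∃ p κ n, a = .inr (p, κ, n) ∧ col Λ p κ n = some m :=
  Iff.rfl

lemma col_inj {Λ : List ℤ → Set K} {p : List ℤ} {κ : K} {n m : ℕ}
    (h : col Λ p κ n = col Λ p κ m) : n = m := by
  classical
  by_cases hκ : κ ∈ Λ p
  · rcases n with _ | n <;> rcases m with _ | m <;> simp [col, hκ] at h ⊢
    exact h
  · rcases n with _ | n <;> rcases m with _ | m <;> simp [col, hκ] at h ⊢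
    exact h

lemma col_some {Λ : List ℤ → Set K} (p : List ℤ) (κ : K) (m : ℕ) : ∃ n, col Λ p κ n = some m := by
  classical
  by_cases h : κ ∈ Λ p
  · exact ⟨m + 1, by simp [col, h]⟩
  · rcases m with _ | m
    · exact ⟨0, by simp [col, h]⟩
    · exact ⟨m + 1, by simp [col, h]⟩

lemma col_none {Λ : List ℤ → Set K} {p : List ℤ} {κ : K} :
    (∃ n, col Λ p κ n = none) ↔ κ ∈ Λ p := by
  classical
  constructor
  · rintro ⟨n, hn⟩
    by_contra h
    rcases n with _ | n <;> simp [col, h] at hn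
  · intro h
    exact ⟨0, by simp [col, h]⟩

lemma col_congr {Λ Λ' : List ℤ → Set K} {p q : List ℤ} {κ : K} (h : κ ∈ Λ p ↔ κ ∈ Λ' q) (n : ℕ) :
    col Λ p κ n = col Λ' q κ n := by
  classical
  rcases n with _ | n <;> simp [col, h]

/-- an embedding of structures on `E` -/
def Emb (Λ Λ' : List ℤ → Set K) (h : E → E) : Prop :=
  ∀ i a b, rel Λ i a b ↔ rel Λ' i (h a) (h b)

/-- What an embedding looks like. -/
theorem Emb.exists_g {Λ Λ' : List ℤ → Set K} {h : E → E} (H : Emb Λ Λ' h) :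
    ∃ g : List ℤ → List ℤ, g [] = [] ∧ (∀ k p, ∃ k', g (k :: p) = k' :: g p) ∧
      (∀ p, h (.inl p) = .inl (g p)) ∧
      (∀ p κ n, ∃ n', h (.inr (p, κ, n)) = .inr (g p, κ, n') ∧
        col Λ p κ n = col Λ' (g p) κ n') := by
  have h0 : h (.inl []) = .inl [] :=
    (rel_root.1 ((H (.inl false) (.inl []) (.inl [])).1 ⟨rfl, rfl⟩)).2
  have hc : ∀ (p : List ℤ) (k : ℤ) (q : List ℤ), h (.inl p) = .inl q →
      ∃ k', h (.inl (k :: p)) = .inl (k' :: q) := by
    intro p k q hq
    obtain ⟨q', k', h1, h2⟩ := rel_par.1 ((H (.inl true) (.inl p) (.inl (k :: p))).1 ⟨p, k, rfl, rfl⟩)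
    rw [hq] at h1
    have h3 : q = q' := Sum.inl_injective h1
    subst h3
    exact ⟨k', h2⟩
  have hex : ∀ p : List ℤ, ∃ q, h (.inl p) = .inl q := by
    intro p
    induction p with
    | nil => exact ⟨[], h0⟩
    | cons k p ih =>
      obtain ⟨q, hq⟩ := ih
      obtain ⟨k', hk'⟩ := hc p k q hq
      exact ⟨_, hk'⟩
  choose g hg using hex
  refine ⟨g, ?_, ?_, hg, ?_⟩
  · have := hg []
    rw [h0] at this
    exact (Sum.inl_injective this).symm
  · intro k p
    obtain ⟨k', hk'⟩ := hc p k (g p) (hg p)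
    rw [hg] at hk'
    exact ⟨k', Sum.inl_injective hk'⟩
  · intro p κ n
    obtain ⟨q, n', h1, h2⟩ := rel_lab.1
      ((H (.inr (.inl κ)) (.inl p) (.inr (p, κ, n))).1 ⟨p, n, rfl, rfl⟩)
    rw [hg] at h1
    have h3 : g p = q := Sum.inl_injective h1
    subst h3
    refine ⟨n', h2, ?_⟩
    have key : ∀ m, col Λ p κ n = some m ↔ col Λ' (g p) κ n' = some m := by
      intro m
      have h4 := H (.inr (.inr m)) (.inr (p, κ, n)) (.inr (p, κ, n))
      rw [rel_col, rel_col, h2] at h4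
      constructor
      · intro h5
        obtain ⟨-, p', κ', m', h6, h7⟩ := h4.1 ⟨rfl, p, κ, n, rfl, h5⟩
        have h8 := Sum.inr_injective h6
        simp only [Prod.mk.injEq] at h8
        obtain ⟨rfl, rfl, rfl⟩ := h8
        exact h7
      · intro h5
        obtain ⟨-, p', κ', m', h6, h7⟩ := h4.2 ⟨rfl, g p, κ, n', rfl, h5⟩
        have h8 := Sum.inr_injective h6
        simp only [Prod.mk.injEq] at h8
        obtain ⟨rfl, rfl, rfl⟩ := h8
        exact h7
    rcases h5 : col Λ p κ n with _ | m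
    · rcases h6 : col Λ' (g p) κ n' with _ | m'
      · rfl
      · rw [(key m').2 h6] at h5
        exact absurd h5 (by simp)
    · exact ((key m).1 h5).symm

theorem Emb.sub {Λ Λ' : List ℤ → Set K} {h : E → E} (H : Emb Λ Λ' h) :
    ∃ g : List ℤ → List ℤ, g [] = [] ∧ (∀ k p, ∃ k', g (k :: p) = k' :: g p) ∧
      ∀ p, Λ p ⊆ Λ' (g p) := by
  obtain ⟨g, h0, h1, h2, h3⟩ := H.exists_g
  refine ⟨g, h0, h1, fun p κ hκ => ?_⟩
  obtain ⟨n, hn⟩ := col_none.2 hκ
  obtain ⟨n', -, h4⟩ := h3 p κ n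
  rw [hn] at h4
  exact col_none.1 ⟨n', h4.symm⟩

/-- Isomorphisms. -/
theorem iso_sub {Λ Λ' : List ℤ → Set K} {h h' : E → E} (H : Emb Λ Λ' h) (H' : Emb Λ' Λ h')
    (h1 : ∀ a, h' (h a) = a) (h2 : ∀ a, h (h' a) = a) :
    ∃ g : List ℤ → List ℤ, IsAuto g ∧ (∀ p, Λ p = Λ' (g p)) ∧ (∀ p, h (.inl p) = .inl (g p)) ∧
      (∀ p κ n, ∃ n', h (.inr (p, κ, n)) = .inr (g p, κ, n') ∧
        col Λ p κ n = col Λ' (g p) κ n') := by
  obtain ⟨g, g0, g1, g2, g3⟩ := H.exists_g
  obtain ⟨g', g0', g1', g2', g3'⟩ := H'.exists_g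
  have e1 : ∀ p, g' (g p) = p := by
    intro p
    have := h1 (.inl p)
    rw [g2, g2'] at this
    exact Sum.inl_injective this
  have e2 : ∀ p, g (g' p) = p := by
    intro p
    have := h2 (.inl p)
    rw [g2', g2] at this
    exact Sum.inl_injective this
  refine ⟨g, ⟨⟨fun p q hpq => ?_, fun p => ⟨g' p, e2 p⟩⟩, g0, g1⟩, fun p => ?_, g2, g3⟩
  · rw [← e1 p, hpq, e1]
  · apply Subset.antisymm
    · intro κ hκ
      obtain ⟨n, hn⟩ := col_none.2 hκ
      obtain ⟨n', -, h4⟩ := g3 p κ n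
      rw [hn] at h4
      exact col_none.1 ⟨n', h4.symm⟩
    · intro κ hκ
      obtain ⟨n, hn⟩ := col_none.2 hκ
      obtain ⟨n', -, h4⟩ := g3' (g p) κ n
      rw [hn, e1] at h4
      exact col_none.1 ⟨n', h4.symm⟩

open Classical in
/-- the shift of the label points -/
noncomputable def sh (Λ Λ' : List ℤ → Set K) (p q : List ℤ) (κ : K) (n : ℕ) : ℕ :=
  if κ ∉ Λ p ∧ κ ∈ Λ' q then n + 1 else n

lemma col_sh {Λ Λ' : List ℤ → Set K} {p q : List ℤ} (hs : Λ p ⊆ Λ' q) (κ : K) (n : ℕ) :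
    col Λ p κ n = col Λ' q κ (sh Λ Λ' p q κ n) := by
  classical
  by_cases h1 : κ ∈ Λ p
  · have h2 := hs h1
    rcases n with _ | n <;> simp [col, sh, h1, h2]
  · by_cases h2 : κ ∈ Λ' q
    · rcases n with _ | n <;> simp [col, sh, h1, h2]
    · rcases n with _ | n <;> simp [col, sh, h1, h2]

lemma sh_inj (Λ Λ' : List ℤ → Set K) (p q : List ℤ) (κ : K) :
    Function.Injective (sh Λ Λ' p q κ) := by
  classical
  intro n m h
  simp only [sh] at h
  split_ifs at h
  · omega
  · exact h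

/-- the map of the universe induced by a map of the tree -/
noncomputable def mp (Λ Λ' : List ℤ → Set K) (g : List ℤ → List ℤ) : E → E
  | .inl p => .inl (g p)
  | .inr (p, κ, n) => .inr (g p, κ, sh Λ Λ' p (g p) κ n)

lemma mp_inj {Λ Λ' : List ℤ → Set K} {g : List ℤ → List ℤ} (hg : Function.Injective g) :
    Function.Injective (mp Λ Λ' g) := by
  rintro (p | ⟨p, κ, n⟩) (q | ⟨q, κ', m⟩) h
  · simp only [mp, Sum.inl.injEq] at h
    rw [hg h]
  · simp [mp] at h
  · simp [mp] at h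
  · simp only [mp, Sum.inr.injEq, Prod.mk.injEq] at h
    obtain ⟨h1, rfl, h3⟩ := h
    have h4 := hg h1
    subst h4
    rw [sh_inj _ _ _ _ _ h3]

lemma mp_emb {Λ Λ' : List ℤ → Set K} {g : List ℤ → List ℤ} (hg : IsAuto g)
    (hs : ∀ p, Λ p ⊆ Λ' (g p)) : Emb Λ Λ' (mp Λ Λ' g) := by
  have hinj := mp_inj (Λ := Λ) (Λ' := Λ') hg.bij.1
  intro i a b
  rcases i with (_ | _) | (κ | m)
  · rw [rel_root, rel_root]
    constructor
    · rintro ⟨rfl, rfl⟩
      refine ⟨rfl, ?_⟩
      show Sum.inl (g []) = Sum.inl []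
      rw [hg.nil]
    · rintro ⟨h1, h2⟩
      refine ⟨hinj h1, hinj ?_⟩
      rw [h2]
      show Sum.inl [] = Sum.inl (g [])
      rw [hg.nil]
  · rw [rel_par, rel_par]
    constructor
    · rintro ⟨p, k, rfl, rfl⟩
      obtain ⟨k', hk'⟩ := hg.cons k p
      refine ⟨g p, k', rfl, ?_⟩
      show Sum.inl (g (k :: p)) = _
      rw [hk']
    · rintro ⟨p, k, h1, h2⟩
      rcases a with a | ⟨a, κ, n⟩
      · rcases b with b | ⟨b, κ, n⟩
        · have h3 : g a = p := Sum.inl_injective h1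
          have h4 : g b = k :: p := Sum.inl_injective h2
          rcases b with _ | ⟨k', b⟩
          · rw [hg.nil] at h4
            exact absurd h4 (by simp)
          · obtain ⟨k'', h5⟩ := hg.cons k' b
            rw [h5, ← h3] at h4
            have h6 := hg.bij.1 (List.cons.inj h4).2
            subst h6
            exact ⟨b, k', rfl, rfl⟩
        · exact absurd h2 (by simp [mp])
      · exact absurd h1 (by simp [mp])
  · rw [rel_lab, rel_lab]
    constructor
    · rintro ⟨p, n, rfl, rfl⟩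
      exact ⟨g p, _, rfl, rfl⟩
    · rintro ⟨p, n, h1, h2⟩
      rcases a with a | ⟨a, κ', n'⟩
      · rcases b with b | ⟨b, κ', n'⟩
        · exact absurd h2 (by simp [mp])
        · have h3 : g a = p := Sum.inl_injective h1
          simp only [mp, Sum.inr.injEq, Prod.mk.injEq] at h2
          obtain ⟨h4, rfl, -⟩ := h2
          rw [← h3] at h4
          have h5 := hg.bij.1 h4
          subst h5
          exact ⟨b, n', rfl, rfl⟩
      · exact absurd h1 (by simp [mp])
  · rw [rel_col, rel_col]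
    constructor
    · rintro ⟨rfl, p, κ, n, rfl, h⟩
      exact ⟨rfl, g p, κ, _, rfl, by rw [← col_sh (hs p), h]⟩
    · rintro ⟨h1, p, κ, n, h2, h3⟩
      refine ⟨hinj h1, ?_⟩
      rcases a with a | ⟨a, κ', n'⟩
      · exact absurd h2 (by simp [mp])
      · simp only [mp, Sum.inr.injEq, Prod.mk.injEq] at h2
        obtain ⟨rfl, rfl, rfl⟩ := h2
        exact ⟨a, κ', n', rfl, by rw [col_sh (hs a), h3]⟩

lemma mp_range {Λ Λ' : List ℤ → Set K} {g : List ℤ → List ℤ} (hg : IsAuto g) (a : E)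
    (ha : a ∉ range (mp Λ Λ' g)) : ∃ q κ, a = .inr (q, κ, 0) ∧ κ ∈ Λ' q ∧
      ∀ m, (.inr (q, κ, m + 1) : E) ∈ range (mp Λ Λ' g) := by
  classical
  rcases a with p | ⟨q, κ, n⟩
  · obtain ⟨p', rfl⟩ := hg.bij.2 p
    exact absurd ⟨.inl p', rfl⟩ ha
  · obtain ⟨p, rfl⟩ := hg.bij.2 q
    by_cases hc : κ ∉ Λ p ∧ κ ∈ Λ' (g p)
    · rcases n with _ | n
      · refine ⟨g p, κ, rfl, hc.2, fun m => ⟨.inr (p, κ, m), ?_⟩⟩
        simp [mp, sh, hc]
      · exact absurd ⟨.inr (p, κ, n), by simp [mp, sh, hc]⟩ ha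
    · exact absurd ⟨.inr (p, κ, n), by simp only [mp, sh, if_neg hc]⟩ ha

/-- The transposition of an uncoloured point with the point of colour `m` in the same set preserves
all relations except for the colour `m`. -/
lemma swap_rel {Λ : List ℤ → Set K} {q : List ℤ} {κ : K} (hκ : κ ∈ Λ q) (m : ℕ) (i : I)
    (hi : i ≠ .inr (.inr m)) (a b : E) :
    rel Λ i (Equiv.swap (.inr (q, κ, 0)) (.inr (q, κ, m + 1)) a)
      (Equiv.swap (.inr (q, κ, 0)) (.inr (q, κ, m + 1)) b) ↔ rel Λ i a b := by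
  classical
  set u : E := .inr (q, κ, 0) with hu
  set v : E := .inr (q, κ, m + 1) with hv
  have huv : u ≠ v := by simp [hu, hv]
  have hl : ∀ p : List ℤ, Equiv.swap u v (.inl p) = .inl p := fun p =>
    Equiv.swap_apply_of_ne_of_ne (by simp [hu]) (by simp [hv])
  have hl' : ∀ (a : E) (p : List ℤ), Equiv.swap u v a = .inl p ↔ a = .inl p := by
    intro a p
    constructor
    · intro h
      rw [← hl p] at h
      exact (Equiv.swap u v).injective h
    · rintro rfl
      exact hl p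
  have hr : ∀ (p : List ℤ) (κ' : K) (n : ℕ), ∃ n', Equiv.swap u v (.inr (p, κ', n)) =
      .inr (p, κ', n') := by
    intro p κ' n
    by_cases h1 : (.inr (p, κ', n) : E) = u
    · rw [h1, Equiv.swap_apply_left]
      simp only [hu, Sum.inr.injEq, Prod.mk.injEq] at h1
      obtain ⟨rfl, rfl, -⟩ := h1
      exact ⟨m + 1, rfl⟩
    · by_cases h2 : (.inr (p, κ', n) : E) = v
      · rw [h2, Equiv.swap_apply_right]
        simp only [hv, Sum.inr.injEq, Prod.mk.injEq] at h2
        obtain ⟨rfl, rfl, -⟩ := h2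
        exact ⟨0, rfl⟩
      · exact ⟨n, Equiv.swap_apply_of_ne_of_ne h1 h2⟩
  rcases i with (_ | _) | (κ' | m')
  · rw [rel_root, rel_root, hl', (Equiv.swap u v).injective.eq_iff]
  · rw [rel_par, rel_par]
    simp only [hl']
  · rw [rel_lab, rel_lab]
    simp only [hl']
    constructor
    · rintro ⟨p, n, h1, h2⟩
      have h3 : b = Equiv.swap u v (.inr (p, κ', n)) := by
        rw [← h2, Equiv.swap_apply_self]
      obtain ⟨n', h4⟩ := hr p κ' n
      exact ⟨p, n', h1, by rw [h3, h4]⟩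
    · rintro ⟨p, n, h1, rfl⟩
      obtain ⟨n', h4⟩ := hr p κ' n
      exact ⟨p, n', h1, h4⟩
  · have hm : m' ≠ m := fun h => hi (by rw [h])
    have hcu : col Λ q κ 0 = none := by simp [col, hκ]
    have hcv : col Λ q κ (m + 1) = some m := by simp [col, hκ]
    rw [rel_col, rel_col, (Equiv.swap u v).injective.eq_iff]
    refine and_congr_right fun _ => ?_
    by_cases h1 : a = u
    · constructor
      · rintro ⟨p, κ', n, h2, h3⟩
        rw [h1, Equiv.swap_apply_left] at h2
        simp only [hv, Sum.inr.injEq, Prod.mk.injEq] at h2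
        obtain ⟨rfl, rfl, rfl⟩ := h2
        rw [hcv] at h3
        exact absurd (Option.some_injective _ h3) hm.symm
      · rintro ⟨p, κ', n, h2, h3⟩
        rw [h1] at h2
        simp only [hu, Sum.inr.injEq, Prod.mk.injEq] at h2
        obtain ⟨rfl, rfl, rfl⟩ := h2
        rw [hcu] at h3
        exact absurd h3 (by simp)
    · by_cases h2 : a = v
      · constructor
        · rintro ⟨p, κ', n, h3, h4⟩
          rw [h2, Equiv.swap_apply_right] at h3
          simp only [hu, Sum.inr.injEq, Prod.mk.injEq] at h3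
          obtain ⟨rfl, rfl, rfl⟩ := h3
          rw [hcu] at h4
          exact absurd h4 (by simp)
        · rintro ⟨p, κ', n, h3, h4⟩
          rw [h2] at h3
          simp only [hv, Sum.inr.injEq, Prod.mk.injEq] at h3
          obtain ⟨rfl, rfl, rfl⟩ := h3
          rw [hcv] at h4
          exact absurd (Option.some_injective _ h4) hm.symm
      · rw [Equiv.swap_apply_of_ne_of_ne h1 h2]

end Pool.Agent.Y567.EE
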