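import Mathlib

/-!
# A criterion for elementary embeddings

An embedding of relational structures is elementary if each point off its range can be moved into the
range by permutations fixing finitely many given points of the range and preserving finitely many
given relations.
-/

set_option autoImplicit false

open Set FirstOrder FirstOrder.Language

namespace Pool.Agent.Y567.EE

universe u v

variable {L : FirstOrder.Language.{u, v}} [L.IsRelational]

lemma term_realize_comp {M : Type*} [L.Structure M] {α : Type*} (t : L.Term α) (σ : M → M)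
    (v : α → M) : t.realize (σ ∘ v) = σ (t.realize v) := by
  cases t with
  | var a => rfl
  | func f ts => exact isEmptyElim f

/-- A formula uses finitely many relation symbols. -/
theorem exists_finite {α : Type*} {n : ℕ} (φ : L.BoundedFormula α n) :
    ∃ F : Set (Σ n, L.Relations n), F.Finite ∧ ∀ (M : Type) [L.Structure M] (σ : Equiv.Perm M),
      (∀ R ∈ F, ∀ w : Fin R.1 → M,
        Structure.RelMap R.2 (σ ∘ w) ↔ Structure.RelMap R.2 w) →
      ∀ (v : α → M) (xs : Fin n → M), φ.Realize (σ ∘ v) (σ ∘ xs) ↔ φ.Realize v xs := by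
  induction φ with
  | falsum => exact ⟨∅, finite_empty, fun M _ σ _ v xs => Iff.rfl⟩
  | equal t₁ t₂ =>
    refine ⟨∅, finite_empty, fun M _ σ _ v xs => ?_⟩
    show t₁.realize (Sum.elim (σ ∘ v) (σ ∘ xs)) = t₂.realize (Sum.elim (σ ∘ v) (σ ∘ xs)) ↔
      t₁.realize (Sum.elim v xs) = t₂.realize (Sum.elim v xs)
    rw [← Sum.comp_elim, term_realize_comp, term_realize_comp, σ.injective.eq_iff]
  | @rel n l R ts =>
    refine ⟨{⟨l, R⟩}, finite_singleton _, fun M _ σ h v xs => ?_⟩
    show Structure.RelMap R (fun i => (ts i).realize (Sum.elim (σ ∘ v) (σ ∘ xs))) ↔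
      Structure.RelMap R (fun i => (ts i).realize (Sum.elim v xs))
    rw [← Sum.comp_elim]
    simp only [term_realize_comp]
    exact h ⟨l, R⟩ rfl (fun i => (ts i).realize (Sum.elim v xs))
  | imp φ₁ φ₂ ih₁ ih₂ =>
    obtain ⟨F₁, hF₁, h₁⟩ := ih₁
    obtain ⟨F₂, hF₂, h₂⟩ := ih₂
    refine ⟨F₁ ∪ F₂, hF₁.union hF₂, fun M _ σ h v xs => ?_⟩
    rw [BoundedFormula.realize_imp, BoundedFormula.realize_imp,
      h₁ M σ (fun R hR => h R (Or.inl hR)), h₂ M σ (fun R hR => h R (Or.inr hR))]
  | all φ ih =>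
    obtain ⟨F, hF, h₁⟩ := ih
    refine ⟨F, hF, fun M _ σ h v xs => ?_⟩
    rw [BoundedFormula.realize_all, BoundedFormula.realize_all]
    constructor
    · intro h2 a
      have h3 := h2 (σ a)
      rw [← Fin.comp_snoc, h₁ M σ h] at h3
      exact h3
    · intro h2 a
      obtain ⟨a, rfl⟩ := σ.surjective a
      rw [← Fin.comp_snoc, h₁ M σ h]
      exact h2 a

theorem elem_of_moves {M N : Type} [L.Structure M] [L.Structure N] (f : M ↪[L] N)
    (H : ∀ b : N, b ∉ range f → ∀ F : Set (Σ n, L.Relations n), F.Finite → ∀ A : Set N,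
      A.Finite → A ⊆ range f → ∃ σ : Equiv.Perm N, σ b ∈ range f ∧ (∀ a ∈ A, σ a = a) ∧
        ∀ R ∈ F, ∀ w : Fin R.1 → N, Structure.RelMap R.2 (σ ∘ w) ↔ Structure.RelMap R.2 w) :
    Nonempty (M ↪ₑ[L] N) := by
  refine ⟨f.toElementaryEmbedding fun n φ x a ha => ?_⟩
  by_cases hb : a ∈ range f
  · obtain ⟨b, rfl⟩ := hb
    exact ⟨b, ha⟩
  · obtain ⟨F, hF, hφ⟩ := exists_finite φ
    obtain ⟨σ, ⟨b, hb'⟩, h2, h3⟩ := H a hb F hF (range (f ∘ x)) (finite_range _)
      (range_comp_subset_range _ _)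
    refine ⟨b, ?_⟩
    have h4 := (hφ N σ h3 default (Fin.snoc (f ∘ x) a)).2 ha
    have h5 : σ ∘ (Fin.snoc (f ∘ x) a : Fin (n + 1) → N) = Fin.snoc (f ∘ x) (f b) := by
      rw [Fin.comp_snoc, ← hb']
      congr 1
      funext i
      exact h2 _ ⟨i, rfl⟩
    rw [h5, Subsingleton.elim (σ ∘ (default : Empty → N)) default] at h4
    exact h4

end Pool.Agent.Y567.EE
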