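import Mathlib
import Pool.Agent.H579R3.Epi3
import Pool.Agent.Y567.EE.Comb
import Pool.Agent.Y567.EE.Elem

/-!
# Analytic quasi-orders and elementary embeddability

Every analytic quasi-order on a Polish space is Borel bireducible with elementary embeddability on an
invariant Borel class of countable structures.
-/

set_option autoImplicit false

open Set MeasureTheory FirstOrder FirstOrder.Language

namespace Pool.Agent.Y567.EE

open Pool.Agent.H579R3.Epi (K IsAuto TLe Lam N Valid Enc ent cd evalAt last Good br br_lam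
  last_congr tree_map rigid measurableSet_lam)

variable {α β : N → N}

/-- A variant of `rel_of_tree` for maps of the tree which need not be bijective. -/
theorem rel_of_tree' {x y : N} (hα : Continuous α) (hβ : Continuous β)
    (htrans : ∀ u v t w w', α w = u → β w = v → α w' = v → β w' = t →
      ∃ w'', α w'' = u ∧ β w'' = t)
    (h : ∃ g : List ℤ → List ℤ, g [] = [] ∧ (∀ k p, ∃ k', g (k :: p) = k' :: g p) ∧
      ∀ p, Lam α β x p ⊆ Lam α β y (g p)) : x = y ∨ ∃ w, α w = x ∧ β w = y := by
  obtain ⟨g, hg0, hgc, hL⟩ := h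
  let q : ℕ → List ℤ := fun n => g (br x n)
  have hex : ∀ n, ∃ k, q (n + 1) = k :: q n := fun n => hgc _ _
  choose k hk using hex
  have hl : ∀ n, (q n).length = n := by
    intro n
    induction n with
    | zero =>
      change (g []).length = 0
      rw [hg0]
      rfl
    | succ n ih => rw [hk, List.length_cons, ih]
  have hmem : ∀ n, Valid α β y (q (n + 1)) ∧ x n = (ent (k n)).1 := by
    intro n
    have h1 := hL _ (br_lam (α := α) (β := β) x n)
    change _ ∈ Lam α β y (q (n + 1)) at h1
    rw [hk, Pool.Agent.H579R3.Epi.Lam_inr] at h1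
    rw [hk]
    exact h1
  -- the limit chain
  set m := (ent (k 0)).2.length with hm
  let L : List (N × N) := List.ofFn fun j : Fin m =>
    ((fun i => ((ent (k i)).2.getD j (0, 0)).1), (fun i => ((ent (k i)).2.getD j (0, 0)).2))
  have hlen : ∀ n, (ent (k n)).2.length = m := by
    intro n
    obtain ⟨⟨a, l, -, h2, -⟩, -⟩ := hmem n
    have h3 := Enc.get hk hl h2 n (by omega)
    have h4 := Enc.get hk hl h2 0 (by omega)
    rw [hm, h3, h4]
    simp [evalAt]
  have hev : ∀ n, evalAt x L n = ent (k n) := by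
    intro n
    have h1 : (L.map fun q => (q.1 n, q.2 n)) = (ent (k n)).2 := by
      apply List.ext_getElem
      · simp [L, hlen]
      · intro j h2 h3
        simp [L, List.getElem?_eq_getElem h3]
    rw [evalAt, h1, (hmem n).2]
  have hgood : ∀ n, Good α β n x L ∧ ∀ i < n, last x L i = y i := by
    intro n
    rcases n with _ | n
    · obtain ⟨⟨a, l, h1, h2, -⟩, -⟩ := hmem 0
      refine ⟨?_, fun i hi => by omega⟩
      have h3 := Enc.get hk hl h2 0 (by omega)
      have h4 := hev 0
      rw [h3] at h4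
      have h5 : l.length = L.length := by
        have := congrArg (fun e => e.2.length) h4
        simp only [evalAt, List.length_map] at this
        exact this.symm
      exact (h1.mono (Nat.zero_le _)).congr h5 (fun i hi => by omega)
    · obtain ⟨⟨a, l, h1, h2, h2'⟩, -⟩ := hmem n
      have h3 := Enc.get hk hl h2
      rw [hl] at h1 h2'
      have h5 : l.length = L.length := by
        have h4 := hev 0
        rw [h3 0 (by omega)] at h4
        have := congrArg (fun e => e.2.length) h4
        simp only [evalAt, List.length_map] at this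
        exact this.symm
      have h6 : ∀ i < n + 1, evalAt a l i = evalAt x L i := by
        intro i hi
        rw [hev, h3 i hi]
      refine ⟨h1.congr h5 h6, fun i hi => ?_⟩
      rw [← last_congr (h6 i hi)]
      exact h2' i hi
  have hlast : last x L = y := by
    funext i
    exact (hgood (i + 1)).2 i (by omega)
  -- closedness
  have hclosed : ∀ (a b w : N), (∀ n, ∃ w' : N, ∀ i < n, α w' i = a i ∧ β w' i = b i ∧ w' i = w i) →
      α w = a ∧ β w = b := by
    intro a b w h1
    choose w' hw' using h1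
    have hlim : Filter.Tendsto w' Filter.atTop (nhds w) := by
      rw [tendsto_pi_nhds]
      intro i
      apply tendsto_const_nhds.congr'
      filter_upwards [Filter.eventually_gt_atTop i] with n hn
      exact ((hw' n i hn).2.2).symm
    constructor
    · funext i
      have h2 := (tendsto_pi_nhds.1 ((hα.tendsto w).comp hlim)) i
      have h3 : Filter.Tendsto (fun n => (α ∘ w') n i) Filter.atTop (nhds (a i)) := by
        apply tendsto_const_nhds.congr'
        filter_upwards [Filter.eventually_gt_atTop i] with n hn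
        exact ((hw' n i hn).1).symm
      exact tendsto_nhds_unique h2 h3
    · funext i
      have h2 := (tendsto_pi_nhds.1 ((hβ.tendsto w).comp hlim)) i
      have h3 : Filter.Tendsto (fun n => (β ∘ w') n i) Filter.atTop (nhds (b i)) := by
        apply tendsto_const_nhds.congr'
        filter_upwards [Filter.eventually_gt_atTop i] with n hn
        exact ((hw' n i hn).2.1).symm
      exact tendsto_nhds_unique h2 h3
  have hreach : ∀ l : List (N × N), (∀ n, Good α β n x l) →
      x = last x l ∨ ∃ w, α w = x ∧ β w = last x l := by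
    intro l
    induction l with
    | nil => intro _; exact Or.inl rfl
    | cons q l ih =>
      intro h1
      have h2 := ih fun n => (h1 n).2
      obtain ⟨h3, h4⟩ := hclosed (last x l) q.2 q.1 fun n => (h1 n).1
      rcases h2 with h2 | ⟨w, h5, h6⟩
      · exact Or.inr ⟨q.1, by rw [h3, ← h2], h4⟩
      · obtain ⟨w'', h7, h8⟩ := htrans _ _ _ _ _ h5 h6 h3 h4
        exact Or.inr ⟨w'', h7, h8⟩
  have := hreach L fun n => (hgood n).1
  rwa [hlast] at this

/-! ### The structures -/

/-- the language with relation symbols `i` of arity `a i` -/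
abbrev Lg (a : ℕ → ℕ) : FirstOrder.Language.{0, 0} :=
  FirstOrder.Language.mk (fun _ => PEmpty.{1}) (fun n => {i : ℕ // a i = n})

/-- the structure on `ℕ` given by its relations -/
abbrev str (a : ℕ → ℕ) (u : ∀ i : ℕ, (Fin (a i) → ℕ) → Bool) : (Lg a).Structure ℕ :=
  @FirstOrder.Language.Structure.mk (Lg a) ℕ (fun f _ => PEmpty.elim f)
    (fun r xs => u (Subtype.val r) (xs ∘ Fin.cast (Subtype.property r)) = true)

/-- elementary embeddability -/
def EEmb (a : ℕ → ℕ) (u v : ∀ i : ℕ, (Fin (a i) → ℕ) → Bool) : Prop :=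
  Nonempty (@FirstOrder.Language.ElementaryEmbedding (Lg a) ℕ ℕ (str a u) (str a v))

/-- all relations are binary -/
abbrev two : ℕ → ℕ := fun _ => 2

open Classical in
/-- the structure on `ℕ` given by `Λ` and a map of `ℕ` to `E` -/
noncomputable def cst (eI : ℕ ≃ I) (Λ : List ℤ → Set K) (π : ℕ → E) :
    ∀ i : ℕ, (Fin (two i) → ℕ) → Bool :=
  fun i v => decide (rel Λ (eI i) (π (v 0)) (π (v 1)))

lemma cst_iff (eI : ℕ ≃ I) (Λ : List ℤ → Set K) (π : ℕ → E) (i : ℕ) (v : Fin 2 → ℕ) :
    cst eI Λ π i v = true ↔ rel Λ (eI i) (π (v 0)) (π (v 1)) := by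
  classical
  exact decide_eq_true_iff

/-- An elementary embedding gives an embedding of the structures on `E`. -/
theorem emb_of_elem (eI : ℕ ≃ I) {Λ Λ' : List ℤ → Set K} (π π' : ℕ ≃ E)
    (h : EEmb two (cst eI Λ π) (cst eI Λ' π')) : ∃ h : E → E, Emb Λ Λ' h := by
  obtain ⟨h⟩ := h
  letI s1 := str two (cst eI Λ π)
  letI s2 := str two (cst eI Λ' π')
  have key : ∀ (i : ℕ) (v : Fin 2 → ℕ), cst eI Λ' π' i ((fun n => @DFunLike.coe
      (@FirstOrder.Language.ElementaryEmbedding (Lg two) ℕ ℕ s1 s2) ℕ (fun _ => ℕ) _ h n) ∘ v) = true ↔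
      cst eI Λ π i v = true := by
    intro i v
    exact @FirstOrder.Language.ElementaryEmbedding.map_rel (Lg two) ℕ ℕ s1 s2 h 2
      (⟨i, rfl⟩ : {i : ℕ // two i = 2}) v
  refine ⟨fun a => π' ((fun n => @DFunLike.coe
      (@FirstOrder.Language.ElementaryEmbedding (Lg two) ℕ ℕ s1 s2) ℕ (fun _ => ℕ) _ h n)
        (π.symm a)), ?_⟩
  intro i a b
  have h1 := key (eI.symm i) ![π.symm a, π.symm b]
  rw [cst_iff, cst_iff] at h1
  simp only [Equiv.apply_symm_apply, Function.comp, Matrix.cons_val_zero, Matrix.cons_val_one] at h1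
  exact h1.symm

/-- A map of trees gives an elementary embedding. -/
theorem elem_of_tree (eI : ℕ ≃ I) {Λ Λ' : List ℤ → Set K} (π π' : ℕ ≃ E)
    (h : TLe Λ Λ') : EEmb two (cst eI Λ π) (cst eI Λ' π') := by
  classical
  obtain ⟨g, hg, hs⟩ := h
  have hE := mp_emb hg hs
  have hi := mp_inj (Λ := Λ) (Λ' := Λ') hg.bij.1
  letI s1 := str two (cst eI Λ π)
  letI s2 := str two (cst eI Λ' π')
  haveI : (Lg two).IsRelational := fun n => inferInstanceAs (IsEmpty PEmpty)
  let f0 : ℕ → ℕ := fun n => π'.symm (mp Λ Λ' g (π n))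
  have hf0 : Function.Injective f0 := fun a b hab => π.injective (hi (π'.symm.injective hab))
  have hmem : ∀ b : ℕ, b ∈ range f0 ↔ π' b ∈ range (mp Λ Λ' g) := by
    intro b
    constructor
    · rintro ⟨n, rfl⟩
      exact ⟨π n, by simp [f0]⟩
    · rintro ⟨n, hn⟩
      exact ⟨π.symm n, by simp [f0, hn]⟩
  let f : @FirstOrder.Language.Embedding (Lg two) ℕ ℕ s1 s2 :=
    @FirstOrder.Language.Embedding.mk (Lg two) ℕ ℕ s1 s2 ⟨f0, hf0⟩
      (fun {n} F x => isEmptyElim F)
      (fun {n} r x => by
        obtain ⟨i, rfl⟩ := r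
        change cst eI Λ' π' i ((f0 ∘ x) ∘ Fin.cast rfl) = true ↔
          cst eI Λ π i (x ∘ Fin.cast rfl) = true
        rw [cst_iff, cst_iff]
        simp only [f0, Function.comp, Equiv.apply_symm_apply]
        exact (hE _ _ _).symm)
  refine @elem_of_moves (Lg two) _ ℕ ℕ s1 s2 f ?_
  intro b hb F hF A hA hAf
  have hb1 : b ∉ range f0 := hb
  have hAf1 : A ⊆ range f0 := hAf
  rw [hmem] at hb1
  obtain ⟨q, κ, hq, hκ, hr⟩ := mp_range hg _ hb1
  -- choice of the colour
  have hfin1 : {m : ℕ | (⟨2, ⟨eI.symm (.inr (.inr m)), rfl⟩⟩ :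
      Σ n, (Lg two).Relations n) ∈ F}.Finite := by
    refine hF.preimage ?_
    intro m _ m' _ hmm
    simp only [Sigma.mk.injEq, heq_eq_eq, true_and, Subtype.mk.injEq] at hmm
    have := eI.symm.injective hmm
    simpa using this
  have hfin2 : {m : ℕ | π'.symm (.inr (q, κ, m + 1)) ∈ A}.Finite := by
    refine hA.preimage ?_
    intro m _ m' _ hmm
    have := π'.symm.injective hmm
    simpa using this
  obtain ⟨m, hm⟩ := (hfin1.union hfin2).infinite_compl.nonempty
  simp only [mem_compl_iff, mem_union, mem_setOf_eq, not_or] at hm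
  obtain ⟨hm1, hm2⟩ := hm
  let s : Equiv.Perm E := Equiv.swap (.inr (q, κ, 0)) (.inr (q, κ, m + 1))
  let σ : Equiv.Perm ℕ := (π'.trans s).trans π'.symm
  have hσ : ∀ n, π' (σ n) = s (π' n) := fun n => by simp [σ]
  refine ⟨σ, ?_, ?_, ?_⟩
  · show σ b ∈ range f0
    rw [hmem, hσ, hq]
    simp only [s, Equiv.swap_apply_left]
    exact hr m
  · intro a ha
    apply π'.injective
    rw [hσ]
    refine Equiv.swap_apply_of_ne_of_ne ?_ ?_
    · intro h1
      rw [← hq] at h1
      exact hb1 (h1 ▸ (hmem a).1 (hAf1 ha))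
    · intro h1
      exact hm2 (by rw [← h1]; simpa using ha)
  · rintro ⟨n, ⟨i, rfl⟩⟩ hR w
    change cst eI Λ' π' i ((σ ∘ w) ∘ Fin.cast rfl) = true ↔
      cst eI Λ' π' i (w ∘ Fin.cast rfl) = true
    rw [cst_iff, cst_iff]
    simp only [Function.comp, hσ]
    refine swap_rel hκ m (eI i) ?_ _ _
    intro h1
    apply hm1
    have h2 : eI.symm (.inr (.inr m)) = i := by rw [← h1, Equiv.symm_apply_apply]
    subst h2
    exact hR

end Pool.Agent.Y567.EE
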