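import Mathlib
import Pool.Agent.Y567.EE.Main

/-!
# Analytic quasi-orders and elementary embeddability: the final assembly
-/

set_option autoImplicit false

open Set MeasureTheory FirstOrder FirstOrder.Language

namespace Pool.Agent.Y567.EE

open Pool.Agent.H579R3.Epi (K IsAuto TLe Lam N tree_map rigid measurableSet_lam)

section

variable {X : Type} [MeasurableSpace X] (Λ : X → List ℤ → Set K)

lemma measurableSet_col (hΛ : ∀ p κ, MeasurableSet {x : X | κ ∈ Λ x p}) (p : List ℤ) (κ : K)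
    (n : ℕ) (c : Option ℕ) : MeasurableSet {x : X | col (Λ x) p κ n = c} := by
  classical
  have h1 : {x : X | col (Λ x) p κ n = c} =
      ({x : X | κ ∈ Λ x p} ∩ {_x | (match n with | 0 => none | n + 1 => some n : Option ℕ) = c}) ∪
      ({x : X | κ ∈ Λ x p}ᶜ ∩ {_x | some n = c}) := by
    ext x
    simp only [mem_union, mem_inter_iff, mem_compl_iff, mem_ofPred_eq]
    by_cases h : κ ∈ Λ x p
    · rcases n with _ | n <;> simp [col, h]
    · rcases n with _ | n <;> simp [col, h]
  rw [h1]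
  exact ((hΛ p κ).inter (MeasurableSet.const _)).union ((hΛ p κ).compl.inter (MeasurableSet.const _))

lemma measurableSet_rel (hΛ : ∀ p κ, MeasurableSet {x : X | κ ∈ Λ x p}) (i : I) (a b : E) :
    MeasurableSet {x : X | rel (Λ x) i a b} := by
  rcases i with (_ | _) | (κ | m)
  · exact MeasurableSet.const _
  · exact MeasurableSet.const _
  · exact MeasurableSet.const _
  · have : {x : X | rel (Λ x) (.inr (.inr m)) a b} = {_x | a = b} ∩
        ⋃ p : List ℤ, ⋃ κ : K, ⋃ n : ℕ, ({_x | a = .inr (p, κ, n)} ∩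
          {x | col (Λ x) p κ n = some m}) := by
      ext x
      simp only [mem_inter_iff, mem_iUnion]
      exact Iff.rfl
    rw [this]
    exact (MeasurableSet.const _).inter (MeasurableSet.iUnion fun p => MeasurableSet.iUnion fun κ =>
      MeasurableSet.iUnion fun n => (MeasurableSet.const _).inter
        (measurableSet_col Λ hΛ p κ n _))

lemma measurable_cst (hΛ : ∀ p κ, MeasurableSet {x : X | κ ∈ Λ x p}) (eI : ℕ ≃ I) (eE : ℕ ≃ E) :
    Measurable (fun q : (ℕ → ℕ) × X => cst eI (Λ q.2) (fun n => eE (q.1 n))) := by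
  classical
  refine measurable_pi_lambda _ fun i => measurable_pi_lambda _ fun v => ?_
  have h1 : MeasurableSet {q : (ℕ → ℕ) × X |
      rel (Λ q.2) (eI i) (eE (q.1 (v 0))) (eE (q.1 (v 1)))} := by
    have h2 : {q : (ℕ → ℕ) × X | rel (Λ q.2) (eI i) (eE (q.1 (v 0))) (eE (q.1 (v 1)))} =
        ⋃ s : ℕ, ⋃ t : ℕ, ({q | q.1 (v 0) = s} ∩ {q | q.1 (v 1) = t} ∩
          {q | rel (Λ q.2) (eI i) (eE s) (eE t)}) := by
      ext q
      simp only [mem_iUnion, mem_inter_iff, mem_ofPred_eq]
      constructor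
      · intro h
        exact ⟨_, _, ⟨rfl, rfl⟩, h⟩
      · rintro ⟨s, t, ⟨rfl, rfl⟩, h⟩
        exact h
    rw [h2]
    have hn : ∀ n d : ℕ, MeasurableSet {q : (ℕ → ℕ) × X | q.1 n = d} := by
      intro n d
      have h3 : Measurable (fun q : (ℕ → ℕ) × X => q.1 n) :=
        (measurable_pi_apply n).comp measurable_fst
      exact h3 (MeasurableSet.of_discrete (s := {d}))
    exact MeasurableSet.iUnion fun s => MeasurableSet.iUnion fun t =>
      ((hn _ _).inter (hn _ _)).inter (measurable_snd (measurableSet_rel Λ hΛ _ _ _))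
  have h3 : (fun q : (ℕ → ℕ) × X => cst eI (Λ q.2) (fun n => eE (q.1 n)) i v) =
      fun q => if q ∈ {q : (ℕ → ℕ) × X |
        rel (Λ q.2) (eI i) (eE (q.1 (v 0))) (eE (q.1 (v 1)))} then true else false := by
    funext q
    simp only [cst, mem_ofPred_eq]
    split_ifs with h
    · exact decide_eq_true h
    · exact decide_eq_false h
  rw [h3]
  exact Measurable.ite h1 measurable_const measurable_const

end

lemma measurableSet_bij : MeasurableSet {f : ℕ → ℕ | Function.Bijective f} := by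
  have hn : ∀ n d : ℕ, MeasurableSet {f : ℕ → ℕ | f n = d} := by
    intro n d
    have h3 : Measurable (fun f : ℕ → ℕ => f n) := measurable_pi_apply n
    exact h3 (MeasurableSet.of_discrete (s := {d}))
  have : {f : ℕ → ℕ | Function.Bijective f} =
      (⋂ n : ℕ, ⋂ m : ℕ, ⋂ _ : n ≠ m, ⋂ d : ℕ, ({f : ℕ → ℕ | f n = d} ∩ {f | f m = d})ᶜ) ∩
      ⋂ d : ℕ, ⋃ n : ℕ, {f : ℕ → ℕ | f n = d} := by
    ext f
    simp only [mem_inter_iff, mem_iInter, mem_iUnion, mem_compl_iff, mem_ofPred_eq]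
    constructor
    · rintro ⟨h1, h2⟩
      refine ⟨fun n m hnm d h3 => hnm (h1 (h3.1.trans h3.2.symm)), h2⟩
    · rintro ⟨h1, h2⟩
      refine ⟨fun n m hnm => ?_, h2⟩
      by_contra h3
      exact h1 n m h3 (f n) ⟨rfl, hnm.symm⟩
  rw [this]
  exact (MeasurableSet.iInter fun n => MeasurableSet.iInter fun m => MeasurableSet.iInter fun _ =>
    MeasurableSet.iInter fun d => ((hn n d).inter (hn m d)).compl).inter
      (MeasurableSet.iInter fun d => MeasurableSet.iUnion fun n => hn n d)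

/-- The theorem for nonempty spaces. -/
theorem main (X : Type) [Nonempty X] [TopologicalSpace X] [PolishSpace X] [MeasurableSpace X]
    [BorelSpace X] (R : X → X → Prop) (hrefl : ∀ x, R x x)
    (htrans : ∀ x y z, R x y → R y z → R x z) (hR : AnalyticSet {p : X × X | R p.1 p.2}) :
    ∃ B : Set (∀ i : ℕ, (Fin (two i) → ℕ) → Bool), MeasurableSet B ∧
      (∀ (σ : Equiv.Perm ℕ) (u : ∀ i : ℕ, (Fin (two i) → ℕ) → Bool),
        u ∈ B ↔ (fun i v => u i (σ ∘ v)) ∈ B) ∧
      (∃ f : X → (∀ i : ℕ, (Fin (two i) → ℕ) → Bool), Measurable f ∧ (∀ x, f x ∈ B) ∧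
        ∀ x y, R x y ↔ EEmb two (f x) (f y)) ∧
      (∃ g : B → X, Measurable g ∧ ∀ u v : B, EEmb two u.1 v.1 ↔ R (g u) (g v)) := by
  classical
  obtain ⟨x₀⟩ := ‹Nonempty X›
  -- a Borel embedding of `X` into Baire space
  obtain ⟨c₀, hc₀m, hc₀i⟩ :=
    MeasurableSpace.measurable_injection_nat_bool_of_countablySeparated X
  let c : X → N := fun x n => (c₀ x n).toNat
  have hcm : Measurable c := by
    refine measurable_pi_lambda _ fun n => ?_
    exact (Measurable.of_discrete (f := Bool.toNat)).comp ((measurable_pi_apply n).comp hc₀m)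
  have hci : Function.Injective c := by
    intro x y hxy
    apply hc₀i
    funext n
    have h := congrFun hxy n
    simp only [c] at h
    cases h1 : c₀ x n <;> cases h2 : c₀ y n <;> simp_all
  -- the relation as a continuous image
  rw [AnalyticSet] at hR
  obtain ⟨ψ, hψ, hψr⟩ : ∃ ψ : (ℕ → ℕ) → X × X, Continuous ψ ∧
      range ψ = {p : X × X | R p.1 p.2} := by
    rcases hR with hR | hR
    · have : (x₀, x₀) ∈ {p : X × X | R p.1 p.2} := hrefl x₀
      rw [hR] at this
      exact absurd this (notMem_empty _)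
    · exact hR
  have hS : AnalyticSet (range fun w : ℕ → ℕ => (c (ψ w).1, c (ψ w).2)) := by
    have h1 : Measurable (fun w : ℕ → ℕ => (c (ψ w).1, c (ψ w).2)) :=
      (hcm.comp (measurable_fst.comp hψ.measurable)).prodMk
        (hcm.comp (measurable_snd.comp hψ.measurable))
    have h2 := (MeasurableSet.univ (α := ℕ → ℕ)).analyticSet_image h1
    rwa [image_univ] at h2
  rw [AnalyticSet] at hS
  obtain ⟨θ, hθ, hθr⟩ : ∃ θ : N → N × N, Continuous θ ∧
      range θ = range fun w : ℕ → ℕ => (c (ψ w).1, c (ψ w).2) := by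
    rcases hS with hS | hS
    · have : (c (ψ 0).1, c (ψ 0).2) ∈ (∅ : Set (N × N)) := by
        rw [← hS]
        exact ⟨0, rfl⟩
      exact absurd this (notMem_empty _)
    · exact hS
  let α : N → N := fun w => (θ w).1
  let β : N → N := fun w => (θ w).2
  have hα : Continuous α := continuous_fst.comp hθ
  have hβ : Continuous β := continuous_snd.comp hθ
  have h1 : ∀ w, ∃ x y, R x y ∧ α w = c x ∧ β w = c y := by
    intro w
    have : θ w ∈ range fun w : ℕ → ℕ => (c (ψ w).1, c (ψ w).2) := by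
      rw [← hθr]
      exact ⟨w, rfl⟩
    obtain ⟨w', hw'⟩ := this
    refine ⟨(ψ w').1, (ψ w').2, ?_, ?_, ?_⟩
    · have : ψ w' ∈ {p : X × X | R p.1 p.2} := by
        rw [← hψr]
        exact ⟨w', rfl⟩
      exact this
    · exact (congrArg Prod.fst hw').symm
    · exact (congrArg Prod.snd hw').symm
  have h2 : ∀ x y, R x y → ∃ w, α w = c x ∧ β w = c y := by
    intro x y hxy
    have hxy' : (x, y) ∈ {p : X × X | R p.1 p.2} := hxy
    rw [← hψr] at hxy'
    obtain ⟨w', hw'⟩ := hxy'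
    have : (c x, c y) ∈ range θ := by
      rw [hθr]
      exact ⟨w', by simp only [hw']⟩
    obtain ⟨w, hw⟩ := this
    exact ⟨w, congrArg Prod.fst hw, congrArg Prod.snd hw⟩
  have htr : ∀ u v t w w', α w = u → β w = v → α w' = v → β w' = t →
      ∃ w'', α w'' = u ∧ β w'' = t := by
    intro u v t w w' e1 e2 e3 e4
    obtain ⟨x, y, hxy, e5, e6⟩ := h1 w
    obtain ⟨y', z, hyz, e7, e8⟩ := h1 w'
    have : y = y' := hci (by rw [← e6, ← e7, e2, e3])
    subst this
    obtain ⟨w'', e9, e10⟩ := h2 x z (htrans x y z hxy hyz)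
    exact ⟨w'', by rw [e9, ← e5, e1], by rw [e10, ← e8, e4]⟩
  let Λ : X → List ℤ → Set K := fun x => Lam α β (c x)
  have key1 : ∀ x y, R x y → TLe (Λ x) (Λ y) := by
    intro x y h
    obtain ⟨w, e1, e2⟩ := h2 x y h
    exact tree_map e1 e2
  have key2 : ∀ x y, (∃ h : E → E, Emb (Λ x) (Λ y) h) → R x y := by
    rintro x y ⟨h, hE⟩
    rcases rel_of_tree' hα hβ htr hE.sub with h3 | ⟨w, e1, e2⟩
    · rw [hci h3]
      exact hrefl _
    · obtain ⟨x', y', hxy, e3, e4⟩ := h1 w
      have e5 : x = x' := hci (by rw [← e1, e3])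
      have e6 : y = y' := hci (by rw [← e2, e4])
      rw [e5, e6]
      exact hxy
  have hΛ : ∀ p κ, MeasurableSet {x : X | κ ∈ Λ x p} := fun p κ =>
    hcm (measurableSet_lam (α := α) (β := β) p κ)
  obtain ⟨eI⟩ : Nonempty (ℕ ≃ I) := by
    haveI := Classical.choice (nonempty_denumerable I)
    exact ⟨(Denumerable.eqv I).symm⟩
  obtain ⟨eE⟩ : Nonempty (ℕ ≃ E) := by
    haveI := Classical.choice (nonempty_denumerable E)
    exact ⟨(Denumerable.eqv E).symm⟩
  have key : ∀ (x y : X) (π π' : ℕ ≃ E), EEmb two (cst eI (Λ x) π) (cst eI (Λ y) π') ↔ R x y :=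
    fun x y π π' => ⟨fun h => key2 x y (emb_of_elem eI π π' h),
      fun h => elem_of_tree eI π π' (key1 x y h)⟩
  -- the class of structures
  let A : Set ((ℕ → ℕ) × X) := {q | Function.Bijective q.1}
  have hA : MeasurableSet A := measurable_fst measurableSet_bij
  let Φ : (ℕ → ℕ) × X → (∀ i : ℕ, (Fin (two i) → ℕ) → Bool) :=
    fun q => cst eI (Λ q.2) (fun n => eE (q.1 n))
  have hΦ : Measurable Φ := measurable_cst Λ hΛ eI eE
  have key' : ∀ q ∈ A, ∀ q' ∈ A, EEmb two (Φ q) (Φ q') ↔ R q.2 q'.2 := by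
    intro q hq q' hq'
    exact key q.2 q'.2 ((Equiv.ofBijective q.1 hq).trans eE) ((Equiv.ofBijective q'.1 hq').trans eE)
  have hinj : InjOn Φ A := by
    rintro ⟨π, x⟩ hq ⟨π', x'⟩ hq' h
    let p : ℕ ≃ E := (Equiv.ofBijective π hq).trans eE
    let p' : ℕ ≃ E := (Equiv.ofBijective π' hq').trans eE
    have h' : cst eI (Λ x) p = cst eI (Λ x') p' := h
    have hr : ∀ (i : I) (n m : ℕ), rel (Λ x) i (p n) (p m) ↔ rel (Λ x') i (p' n) (p' m) := by
      intro i n m
      have h3 : cst eI (Λ x) p (eI.symm i) ![n, m] = true ↔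
          cst eI (Λ x') p' (eI.symm i) ![n, m] = true := by rw [h']
      rw [cst_iff, cst_iff] at h3
      simpa using h3
    let h : E → E := fun a => p' (p.symm a)
    let h₁ : E → E := fun a => p (p'.symm a)
    have H : Emb (Λ x) (Λ x') h := by
      intro i a b
      have := hr i (p.symm a) (p.symm b)
      simpa [h] using this
    have H₁ : Emb (Λ x') (Λ x) h₁ := by
      intro i a b
      have := hr i (p'.symm a) (p'.symm b)
      simpa [h₁] using this.symm
    obtain ⟨g, hg, hgΛ, hg1, hg2⟩ := iso_sub H H₁ (fun a => by simp [h, h₁])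
      (fun a => by simp [h, h₁])
    obtain ⟨hid, hxx⟩ := rigid hg hgΛ
    have hx : x = x' := hci hxx
    subst hx
    have hh : ∀ a, h a = a := by
      rintro (q | ⟨q, κ, n⟩)
      · rw [hg1, hid]
      · obtain ⟨n', h4, h5⟩ := hg2 q κ n
        rw [hid] at h4 h5
        rw [h4, ← col_inj h5]
    refine Prod.ext ?_ rfl
    funext n
    change π n = π' n
    have h6 := hh (p n)
    simp only [h, Equiv.symm_apply_apply] at h6
    exact (eE.injective h6).symm
  have hAs : StandardBorelSpace A := hA.standardBorel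
  let Ψ : A → (∀ i : ℕ, (Fin (two i) → ℕ) → Bool) := fun q => Φ q.1
  have hΨ : MeasurableEmbedding Ψ := by
    apply Measurable.measurableEmbedding (hΦ.comp measurable_subtype_coe)
    intro q q' h
    exact Subtype.ext (hinj q.2 q'.2 h)
  obtain ⟨G, hG, hGΨ⟩ := hΨ.exists_measurable_extend
    (g := fun q : A => q.1.2) (measurable_snd.comp measurable_subtype_coe) (fun _ => ⟨x₀⟩)
  have hGpull : ∀ q ∈ A, G (Φ q) = q.2 := by
    intro q h
    exact congrFun hGΨ ⟨q, h⟩
  have hinv : ∀ (σ : Equiv.Perm ℕ) (u : ∀ i : ℕ, (Fin (two i) → ℕ) → Bool), u ∈ Φ '' A →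
      (fun i v => u i (σ ∘ v)) ∈ Φ '' A := by
    rintro σ _ ⟨⟨π, x⟩, hq, rfl⟩
    exact ⟨(π ∘ σ, x), (show Function.Bijective π from hq).comp σ.bijective, rfl⟩
  refine ⟨Φ '' A, hA.image_of_measurable_injOn hΦ hinj, ?_, ?_, ?_⟩
  · intro σ u
    refine ⟨hinv σ u, fun h => ?_⟩
    have h3 := hinv σ⁻¹ _ h
    have h4 : (fun i v => (fun (i : ℕ) (v : Fin (two i) → ℕ) => u i (σ ∘ v)) i (⇑σ⁻¹ ∘ v)) = u := by
      funext i v
      change u i (σ ∘ (⇑σ⁻¹ ∘ v)) = u i v
      congr 1
      funext j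
      simp
    rw [h4] at h3
    exact h3
  · refine ⟨fun x => Φ (id, x), hΦ.comp (measurable_const.prodMk measurable_id), ?_, ?_⟩
    · intro x
      exact ⟨(id, x), Function.bijective_id, rfl⟩
    · intro x y
      exact (key' (id, x) Function.bijective_id (id, y) Function.bijective_id).symm
  · refine ⟨fun u => G u.1, hG.comp measurable_subtype_coe, ?_⟩
    rintro ⟨_, ⟨q, hq, rfl⟩⟩ ⟨_, ⟨q', hq', rfl⟩⟩
    change EEmb two (Φ q) (Φ q') ↔ R (G (Φ q)) (G (Φ q'))
    rw [key' q hq q' hq', hGpull q hq, hGpull q' hq']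

end Pool.Agent.Y567.EE
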